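import Pool.Agent.Q82.MD.Stm

set_option autoImplicit false

/-!
# Project MD, CRK: the classes (C), (R), (K) from their smooth strict versions
-/

namespace Pool.Agent.Q128.MD

open MeasureTheory Set Filter Topology
open Pool.Agent.W779.Morrey Pool.Agent.Q82.MD

abbrev M2 := Matrix (Fin 2) (Fin 2) ℝ

/-- the function on a plane of matrices of rank at most one -/
theorem convex_sect {W : M2 → ℝ} (hW : RankOneConvex W) (σ : V → M2)
    (hσ : ∀ (a b : ℝ) (y z : V), σ (a • y + b • z) = a • σ y + b • σ z)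
    (hr : ∀ y, σ y ≠ 0 → (σ y).rank = 1) : ConvexOn ℝ univ (fun y => W (σ y)) := by
  refine ⟨convex_univ, ?_⟩
  intro y _ z _ a b ha hb hab
  have ha' : a = 1 - b := by linarith
  subst ha'
  show W (σ ((1 - b) • y + b • z)) ≤ (1 - b) • W (σ y) + b • W (σ z)
  rw [hσ]
  have hsub : σ (z - y) = σ z - σ y := by
    have := hσ 1 (-1) z y
    simp only [one_smul, neg_smul] at this
    rw [sub_eq_add_neg, this, sub_eq_add_neg]
  by_cases h0 : σ (z - y) = 0
  · have h1 : σ z = σ y := by
      rw [hsub] at h0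
      exact sub_eq_zero.1 h0
    rw [h1, ← add_smul, ← add_smul]
    simp
  · have h1 := hW (σ y) (σ (z - y)) (hr _ h0) b hb (by linarith)
    have h2 : σ y + σ (z - y) = σ z := by rw [hsub]; abel
    rw [h2] at h1
    simpa using h1

theorem cont_of_sect {W : M2 → ℝ} (hW : RankOneConvex W) (σ : V → M2)
    (hσ : ∀ (a b : ℝ) (y z : V), σ (a • y + b • z) = a • σ y + b • σ z)
    (hr : ∀ y, σ y ≠ 0 → (σ y).rank = 1) : Continuous (fun y => W (σ y)) := by
  have h := (convex_sect hW σ hσ hr).continuousOn isOpen_univ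
  exact continuousOn_univ.1 h

/-- the matrix `z ⊗ ξ` -/
def tm (z ξ : V) : M2 := fun r l => z r * ξ l

theorem rank_zero' (A : M2) (h : A.rank = 0) : A = 0 := by
  have h1 : LinearMap.range A.mulVecLin = ⊥ := by
    rw [← Submodule.finrank_eq_zero (R := ℝ)]
    exact h
  have h2 : A.mulVecLin = 0 := LinearMap.range_eq_bot.1 h1
  ext i j
  have h3 := congrFun (congrArg (fun f : (Fin 2 → ℝ) →ₗ[ℝ] (Fin 2 → ℝ) => f (Pi.single j 1)) h2) i
  simpa using h3

theorem rank_one_of (z ξ : V) (h : tm z ξ ≠ 0) : (tm z ξ).rank = 1 := by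
  have e : tm z ξ = Matrix.vecMulVec z ξ := by
    ext r l; rfl
  have h1 : (Matrix.vecMulVec z ξ).rank ≤ 1 := Matrix.rank_vecMulVec_le z ξ
  have h2 : (Matrix.vecMulVec z ξ).rank ≠ 0 := by
    intro h0
    apply h
    rw [e]
    exact rank_zero' _ h0
  rw [e]
  omega

/-- first column -/
def colv (y : V) : M2 := tm y ![1, 0]

/-- first row -/
def rowv (y : V) : M2 := tm ![1, 0] y

theorem colv_lin (a b : ℝ) (y z : V) : colv (a • y + b • z) = a • colv y + b • colv z := by
  ext r l
  simp only [colv, tm, Matrix.add_apply, Matrix.smul_apply, Pi.add_apply, Pi.smul_apply, smul_eq_mul]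
  ring

theorem rowv_lin (a b : ℝ) (y z : V) : rowv (a • y + b • z) = a • rowv y + b • rowv z := by
  ext r l
  simp only [rowv, tm, Matrix.add_apply, Matrix.smul_apply, Pi.add_apply, Pi.smul_apply, smul_eq_mul]
  ring

theorem colv_rank (y : V) (h : colv y ≠ 0) : (colv y).rank = 1 := rank_one_of _ _ h

theorem rowv_rank (y : V) (h : rowv y ≠ 0) : (rowv y).rank = 1 := rank_one_of _ _ h

/-- the scalar product of matrices, as a bilinear form -/
noncomputable def ip : E →L[ℝ] E →L[ℝ] ℝ :=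
  LinearMap.toContinuousLinearMap ((LinearMap.toContinuousLinearMap
    (𝕜 := ℝ) (E := E) (F' := ℝ)).toLinearMap.comp
      (LinearMap.mk₂ ℝ (fun F G : E => ∑ i, ∑ j, F i j * G i j)
        (fun F F' G => by simp only [Pi.add_apply, add_mul, Finset.sum_add_distrib])
        (fun c F G => by
          simp only [Pi.smul_apply, smul_eq_mul, mul_assoc, Finset.mul_sum])
        (fun F G G' => by simp only [Pi.add_apply, mul_add, Finset.sum_add_distrib])
        (fun c F G => by
          simp only [Pi.smul_apply, smul_eq_mul, Finset.mul_sum]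
          refine Finset.sum_congr rfl fun i _ => Finset.sum_congr rfl fun j _ => by ring)))

theorem ip_apply (F G : E) : ip F G = F 0 0 * G 0 0 + F 0 1 * G 0 1 + F 1 0 * G 1 0 + F 1 1 * G 1 1 := by
  simp only [ip, LinearMap.coe_toContinuousLinearMap', LinearMap.comp_apply,
    LinearEquiv.coe_coe, LinearMap.mk₂_apply, Fin.sum_univ_two]
  ring


theorem ip_symm (F G : E) : ip F G = ip G F := by
  rw [ip_apply, ip_apply]; ring

theorem ip_self (F : E) : ip F F = nn F := by
  rw [ip_apply, nn]; ring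

theorem nn_tens (z ξ : V) : nn (tens z ξ) = dp z z * dp ξ ξ := by
  simp only [nn, tens, dp]; ring

theorem nn_le {F : E} {R : ℝ} (h : ∀ i j, |F i j| ≤ R) : nn F ≤ 4 * R ^ 2 := by
  have h1 : ∀ i j, F i j ^ 2 ≤ R ^ 2 := fun i j => by
    rw [← sq_abs]
    exact pow_le_pow_left₀ (abs_nonneg _) (h i j) 2
  have := h1 0 0; have := h1 0 1; have := h1 1 0; have := h1 1 1
  simp only [nn]; linarith

theorem nn_nonneg (F : E) : 0 ≤ nn F := by simp only [nn]; positivity

theorem cont_bil (B : E →L[ℝ] E →L[ℝ] ℝ) : Continuous (fun F : M2 => B F F) := by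
  have h : Continuous (fun F : E => B F F) := B.continuous.clm_apply continuous_id
  exact h

/-- the generic argument -/
theorem gen_lim (hL : S_LIMQ) {W : M2 → ℝ} (hW : Continuous W)
    (h : ∀ R ε : ℝ, 0 < R → 0 < ε → ∃ (W1 : M2 → ℝ) (C : ℝ), 0 ≤ C ∧ (∀ F, (∀ i j, |F i j| ≤ R) →
      |W F - W1 F| ≤ ε) ∧ ∀ η : ℝ, 0 < η → ∃ W' : M2 → ℝ, Continuous W' ∧ Quasiconvex W' ∧
        ∀ F, (∀ i j, |F i j| ≤ R) → |W1 F - W' F| ≤ η * C) : Quasiconvex W := by
  refine hL W hW ?_
  intro R ε hR hε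
  obtain ⟨W1, C, hC, h1, h2⟩ := h R (ε / 2) hR (by linarith)
  obtain ⟨W', hc, hq, h3⟩ := h2 (ε / (2 * (C + 1))) (by positivity)
  refine ⟨W', hc, hq, ?_⟩
  intro F hF
  have h4 := h1 F hF
  have h5 := h3 F hF
  have h6 : ε / (2 * (C + 1)) * C ≤ ε / 2 := by
    rw [div_mul_eq_mul_div, div_le_iff₀ (by positivity)]
    nlinarith
  calc |W F - W' F| = |(W F - W1 F) + (W1 F - W' F)| := by ring_nf
    _ ≤ |W F - W1 F| + |W1 F - W' F| := abs_add_le _ _
    _ ≤ ε := by linarith

theorem lin_bdd' (T : E →L[ℝ] V) (R : ℝ) : ∀ F : E, (∀ i j, |F i j| ≤ R) →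
    ∀ i, |T F i| ≤ ‖T‖ * |R| + 1 := by
  intro F hF i
  have h1 : |T F i| ≤ ‖T F‖ := norm_le_pi_norm (T F) i
  have h2 : ‖T F‖ ≤ ‖T‖ * ‖F‖ := T.le_opNorm F
  have h3 : ‖F‖ ≤ |R| := by
    refine (pi_norm_le_iff_of_nonneg (abs_nonneg R)).2 fun i => ?_
    refine (pi_norm_le_iff_of_nonneg (abs_nonneg R)).2 fun j => ?_
    exact (hF i j).trans (le_abs_self R)
  have h4 : ‖T‖ * ‖F‖ ≤ ‖T‖ * |R| := mul_le_mul_of_nonneg_left h3 (norm_nonneg _)
  linarith

/-- bounds for a linear map on the cube -/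
theorem lin_bdd (T : E →L[ℝ] V) (R : ℝ) : ∃ ρ : ℝ, 0 < ρ ∧
    ∀ F : M2, (∀ i j, |F i j| ≤ R) → ∀ i, |T F i| ≤ ρ :=
  ⟨‖T‖ * |R| + 1, by positivity, fun F hF i => lin_bdd' T R F hF i⟩

/-- `F ↦ F e₁` -/
noncomputable def colT : E →L[ℝ] V :=
  ContinuousLinearMap.pi fun r => (ContinuousLinearMap.proj (R := ℝ) (φ := fun _ : Fin 2 => ℝ) 0).comp
    (ContinuousLinearMap.proj (R := ℝ) (φ := fun _ : Fin 2 => V) r)

theorem colT_apply (F : E) : colT F = fun r => F r 0 := rfl

/-- the first row -/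
noncomputable def rowT : E →L[ℝ] V := ContinuousLinearMap.proj (R := ℝ) (φ := fun _ : Fin 2 => V) 0

theorem rowT_apply (F : E) : rowT F = F 0 := rfl

/-- the conformal part -/
noncomputable def cfT : E →L[ℝ] V :=
  LinearMap.toContinuousLinearMap
    { toFun := fun F => cf F
      map_add' := fun F G => by
        funext i
        fin_cases i <;> simp [cf] <;> ring
      map_smul' := fun c F => by
        funext i
        fin_cases i <;> simp [cf] <;> ring }

theorem cfT_apply (F : E) : cfT F = cf F := rfl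

theorem colT_tens (z ξ : V) : colT (tens z ξ) = ξ 0 • z := by
  rw [colT_apply]
  funext r
  simp only [tens, Pi.smul_apply, smul_eq_mul]; ring

theorem rowT_tens (z ξ : V) : rowT (tens z ξ) = z 0 • ξ := by
  rw [rowT_apply]
  funext r
  simp only [tens, Pi.smul_apply, smul_eq_mul]

/-- continuity of `ψ` -/
theorem psi_cont {ψ : V → ℝ} {T : E →L[ℝ] V} {B : E →L[ℝ] E →L[ℝ] ℝ}
    (h : RankOneConvex (fun F : M2 => ψ (T F) + B F F)) (σ : V → M2)
    (hσ : ∀ (a b : ℝ) (y z : V), σ (a • y + b • z) = a • σ y + b • σ z)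
    (hr : ∀ y, σ y ≠ 0 → (σ y).rank = 1) (hT : ∀ y, T (σ y) = y) (hc : Continuous σ) :
    Continuous ψ := by
  have h1 := cont_of_sect h σ hσ hr
  have h2 : Continuous (fun y => B (σ y) (σ y)) := (cont_bil B).comp hc
  have h3 : ψ = fun y => (ψ (T (σ y)) + B (σ y) (σ y)) - B (σ y) (σ y) := by
    funext y; rw [hT]; ring
  rw [h3]
  exact h1.sub h2

theorem tm_cont_left (ξ : V) : Continuous (fun z : V => tm z ξ) := by
  refine continuous_matrix fun i j => ?_
  exact (continuous_apply i).mul continuous_const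

theorem tm_cont_right (z : V) : Continuous (fun ξ : V => tm z ξ) := by
  refine continuous_matrix fun i j => ?_
  exact continuous_const.mul (continuous_apply j)

theorem c : S_MROC → S_LIMQ → S_Cs → S_C := by
  intro hM hL hC ψ B hB hR
  have hR' : RankOneConvex (fun F : M2 => ψ (colT F) + B F F) := hR
  have hsec : ∀ y, colT (colv y) = y := by
    intro y
    rw [colT_apply]
    funext r
    simp [colv, tm]
  have hψ : Continuous ψ := psi_cont hR' colv colv_lin colv_rank hsec (tm_cont_left _)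
  have hsurj : Function.Surjective colT := fun y => ⟨colv y, hsec y⟩
  have hTc : Continuous (fun F : M2 => (fun r => F r 0 : V)) := colT.continuous
  have hWc : Continuous (fun F : M2 => ψ (fun r => F r 0) + B F F) :=
    (hψ.comp hTc).add (cont_bil B)
  refine gen_lim hL hWc ?_
  intro R ε hR0 hε
  obtain ⟨ρ, hρ, hbd⟩ := lin_bdd colT R
  obtain ⟨ψ', h1, h2, h3⟩ := hM colT ψ B hsurj hψ hB hR' ρ ε hρ hε
  refine ⟨fun F => ψ' (fun r => F r 0) + B F F, 4 * R ^ 2 / 2, by positivity, ?_, ?_⟩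
  · intro F hF
    have h4 := h3 (colT F) (hbd F hF)
    rw [abs_sub_comm] at h4
    have e : ψ (fun r => F r 0) + B F F - (ψ' (fun r => F r 0) + B F F) =
      ψ (colT F) - ψ' (colT F) := by rw [colT_apply]; ring
    rw [e]; exact h4
  · intro η hη
    have hq := hC ψ' (B + (η / 2) • ip) η h1 ?_ hη ?_
    · refine ⟨fun F => ψ' (fun r => F r 0) + (B + (η / 2) • ip) F F,
        (h1.continuous.comp hTc).add (cont_bil _), hq, ?_⟩
      intro F hF
      have e : ψ' (fun r => F r 0) + B F F -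
          (ψ' (fun r => F r 0) + (B + (η / 2) • ip) F F) = -(η / 2 * nn F) := by
        have : (B + (η / 2) • ip) F F = B F F + η / 2 * ip F F := rfl
        rw [this, ip_self]; ring
      rw [e, abs_neg, abs_of_nonneg (mul_nonneg (by linarith) (nn_nonneg F))]
      have := nn_le hF
      nlinarith
    · intro F G
      have : ∀ F G : E, (B + (η / 2) • ip) F G = B F G + η / 2 * ip F G := fun _ _ => rfl
      rw [this, this, hB, ip_symm]
    · intro y z ξ
      have := h2 y z ξ
      rw [colT_tens] at this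
      have e : (B + (η / 2) • ip) (tens z ξ) (tens z ξ) =
        B (tens z ξ) (tens z ξ) + η / 2 * ip (tens z ξ) (tens z ξ) := rfl
      rw [e, ip_self, nn_tens]
      linarith

theorem r : S_MROC → S_LIMQ → S_Rs → S_R := by
  intro hM hL hC ψ B hB hR
  have hR' : RankOneConvex (fun F : M2 => ψ (rowT F) + B F F) := hR
  have hsec : ∀ y, rowT (rowv y) = y := by
    intro y
    rw [rowT_apply]
    funext r
    simp [rowv, tm]
  have hψ : Continuous ψ := psi_cont hR' rowv rowv_lin rowv_rank hsec (tm_cont_right _)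
  have hsurj : Function.Surjective rowT := fun y => ⟨rowv y, hsec y⟩
  have hTc : Continuous (fun F : M2 => (F 0 : V)) := rowT.continuous
  have hWc : Continuous (fun F : M2 => ψ (F 0) + B F F) :=
    (hψ.comp hTc).add (cont_bil B)
  refine gen_lim hL hWc ?_
  intro R ε hR0 hε
  obtain ⟨ρ, hρ, hbd⟩ := lin_bdd rowT R
  obtain ⟨ψ', h1, h2, h3⟩ := hM rowT ψ B hsurj hψ hB hR' ρ ε hρ hε
  refine ⟨fun F => ψ' (F 0) + B F F, 4 * R ^ 2 / 2, by positivity, ?_, ?_⟩
  · intro F hF
    have h4 := h3 (rowT F) (hbd F hF)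
    rw [abs_sub_comm] at h4
    have e : ψ (F 0) + B F F - (ψ' (F 0) + B F F) =
      ψ (rowT F) - ψ' (rowT F) := by rw [rowT_apply]; ring
    rw [e]; exact h4
  · intro η hη
    have hq := hC ψ' (B + (η / 2) • ip) η h1 ?_ hη ?_
    · refine ⟨fun F => ψ' (F 0) + (B + (η / 2) • ip) F F,
        (h1.continuous.comp hTc).add (cont_bil _), hq, ?_⟩
      intro F hF
      have e : ψ' (F 0) + B F F -
          (ψ' (F 0) + (B + (η / 2) • ip) F F) = -(η / 2 * nn F) := by
        have : (B + (η / 2) • ip) F F = B F F + η / 2 * ip F F := rfl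
        rw [this, ip_self]; ring
      rw [e, abs_neg, abs_of_nonneg (mul_nonneg (by linarith) (nn_nonneg F))]
      have := nn_le hF
      nlinarith
    · intro F G
      have : ∀ F G : E, (B + (η / 2) • ip) F G = B F G + η / 2 * ip F G := fun _ _ => rfl
      rw [this, this, hB, ip_symm]
    · intro y z ξ
      have := h2 y z ξ
      rw [rowT_tens] at this
      have e : (B + (η / 2) • ip) (tens z ξ) (tens z ξ) =
        B (tens z ξ) (tens z ξ) + η / 2 * ip (tens z ξ) (tens z ξ) := rfl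
      rw [e, ip_self, nn_tens]
      linarith


/-- the bilinear form of the class (K) -/
noncomputable def Bk (m : E →L[ℝ] V) (κ : ℝ) : E →L[ℝ] E →L[ℝ] ℝ :=
  LinearMap.toContinuousLinearMap ((LinearMap.toContinuousLinearMap
    (𝕜 := ℝ) (E := E) (F' := ℝ)).toLinearMap.comp
      (LinearMap.mk₂ ℝ (fun F G : E => 1 / 2 * (dp (cf F) (m G) + dp (cf G) (m F)) +
          κ / 2 * (F 0 0 * G 1 1 + G 0 0 * F 1 1 - F 0 1 * G 1 0 - G 0 1 * F 1 0))
        (fun F F' G => by
          simp only [map_add, dp, cf, Pi.add_apply, Matrix.cons_val_zero, Matrix.cons_val_one]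
          ring)
        (fun c F G => by
          simp only [map_smul, dp, cf, Pi.smul_apply, smul_eq_mul, Matrix.cons_val_zero,
            Matrix.cons_val_one]
          ring)
        (fun F G G' => by
          simp only [map_add, dp, cf, Pi.add_apply, Matrix.cons_val_zero, Matrix.cons_val_one]
          ring)
        (fun c F G => by
          simp only [map_smul, dp, cf, Pi.smul_apply, smul_eq_mul, Matrix.cons_val_zero,
            Matrix.cons_val_one]
          ring)))

theorem Bk_apply (m : E →L[ℝ] V) (κ : ℝ) (F G : E) : Bk m κ F G =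
    1 / 2 * (dp (cf F) (m G) + dp (cf G) (m F)) +
      κ / 2 * (F 0 0 * G 1 1 + G 0 0 * F 1 1 - F 0 1 * G 1 0 - G 0 1 * F 1 0) := by
  simp only [Bk, LinearMap.coe_toContinuousLinearMap', LinearMap.comp_apply,
    LinearEquiv.coe_coe, LinearMap.mk₂_apply]

theorem Bk_self (m : E →L[ℝ] V) (κ : ℝ) (F : E) : Bk m κ F F =
    dp (cf F) (m F) + κ * (F 0 0 * F 1 1 - F 0 1 * F 1 0) := by
  rw [Bk_apply]; ring

theorem cf_tens (z ξ : V) : dp (cf (tens z ξ)) (cf (tens z ξ)) = dp z z * dp ξ ξ := by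
  simp only [dp, cf, tens, Matrix.cons_val_zero, Matrix.cons_val_one]
  ring

theorem k : S_MROC → S_LIMQ → S_Ks → S_K := by
  intro hM hL hC ψ m κ hR
  have eW : (fun F : M2 => ψ (cf F) + dp (cf F) (m F) + κ * (F 0 0 * F 1 1 - F 0 1 * F 1 0)) =
      fun F : M2 => ψ (cfT F) + Bk m κ F F := by
    funext F
    rw [Bk_self, cfT_apply]; ring
  have hR' : RankOneConvex (fun F : M2 => ψ (cfT F) + Bk m κ F F) := by rw [← eW]; exact hR
  have hB : ∀ F G, Bk m κ F G = Bk m κ G F := by
    intro F G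
    rw [Bk_apply, Bk_apply]; ring
  have hsec : ∀ y, cfT (colv y) = y := by
    intro y
    rw [cfT_apply]
    funext r
    fin_cases r <;> simp [cf, colv, tm]
  have hψ : Continuous ψ := psi_cont hR' colv colv_lin colv_rank hsec (tm_cont_left _)
  have hsurj : Function.Surjective cfT := fun y => ⟨colv y, hsec y⟩
  have hTc : Continuous (fun F : M2 => cfT F) := cfT.continuous
  rw [eW]
  have hWc : Continuous (fun F : M2 => ψ (cfT F) + Bk m κ F F) :=
    (hψ.comp hTc).add (cont_bil _)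
  refine gen_lim hL hWc ?_
  intro R ε hR0 hε
  obtain ⟨ρ, hρ, hbd⟩ := lin_bdd cfT R
  obtain ⟨ψ', h1, h2, h3⟩ := hM cfT ψ (Bk m κ) hsurj hψ hB hR' ρ ε hρ hε
  refine ⟨fun F => ψ' (cfT F) + Bk m κ F F, 8 * R ^ 2 / 2, by positivity, ?_, ?_⟩
  · intro F hF
    have h4 := h3 (cfT F) (hbd F hF)
    rw [abs_sub_comm] at h4
    have e : ψ (cfT F) + Bk m κ F F - (ψ' (cfT F) + Bk m κ F F) = ψ (cfT F) - ψ' (cfT F) := by
      ring
    rw [e]; exact h4
  · intro η hη
    have hq := hC ψ' (m + (η / 2) • cfT) κ η h1 hη ?_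
    · refine ⟨_, ?_, hq, ?_⟩
      · have e2 : (fun F : M2 => ψ' (cf F) + dp (cf F) ((m + (η / 2) • cfT) F) +
            κ * (F 0 0 * F 1 1 - F 0 1 * F 1 0)) =
            fun F : M2 => ψ' (cfT F) + Bk (m + (η / 2) • cfT) κ F F := by
          funext F
          rw [Bk_self, cfT_apply]; ring
        rw [e2]
        exact (h1.continuous.comp hTc).add (cont_bil _)
      · intro F hF
        have e3 : (m + (η / 2) • cfT) F = m F + (η / 2) • cf F := rfl
        have e : ψ' (cfT F) + Bk m κ F F - (ψ' (cf F) + dp (cf F) ((m + (η / 2) • cfT) F) +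
            κ * (F 0 0 * F 1 1 - F 0 1 * F 1 0)) = -(η / 2 * dp (cf F) (cf F)) := by
          rw [Bk_self, cfT_apply, e3]
          simp only [dp, Pi.add_apply, Pi.smul_apply, smul_eq_mul]
          ring
        have h0 : 0 ≤ dp (cf F) (cf F) := by
          simp only [dp]; nlinarith [mul_self_nonneg (cf F 0), mul_self_nonneg (cf F 1)]
        rw [e, abs_neg, abs_of_nonneg (mul_nonneg (by linarith) h0)]
        have h5 : dp (cf F) (cf F) ≤ 8 * R ^ 2 := by
          have k1 : dp (cf F) (cf F) ≤ 2 * nn F := by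
            simp only [dp, cf, nn, Matrix.cons_val_zero, Matrix.cons_val_one]
            nlinarith [sq_nonneg (F 0 0 - F 1 1), sq_nonneg (F 1 0 + F 0 1)]
          have k2 := nn_le hF
          linarith
        nlinarith
    · intro y z ξ
      have h6 := h2 y z ξ
      rw [cfT_apply, Bk_self] at h6
      have e3 : (m + (η / 2) • cfT) (tens z ξ) = m (tens z ξ) + (η / 2) • cf (tens z ξ) := rfl
      have e4 : dp (cf (tens z ξ)) ((m + (η / 2) • cfT) (tens z ξ)) =
          dp (cf (tens z ξ)) (m (tens z ξ)) + η / 2 * (dp z z * dp ξ ξ) := by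
        rw [e3, ← cf_tens]
        simp only [dp, Pi.add_apply, Pi.smul_apply, smul_eq_mul]
        ring
      have e5 : tens z ξ 0 0 * tens z ξ 1 1 - tens z ξ 0 1 * tens z ξ 1 0 = 0 := by
        simp only [tens]; ring
      rw [e4]
      rw [e5] at h6
      linarith

end Pool.Agent.Q128.MD
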